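import Mathlib
import Pool.Agent.H710R2.DP.Defs
import Pool.Agent.H710R2.DP.Defs2
import Pool.Agent.H710R2.DP.Tasks

/-!
Task R1 (helper57): the relative commutant of matrix units in a von Neumann algebra
(construction following helper501's file `H501R2.Kad4.F9` for `2 × 2` matrix units).
-/

open scoped ComplexOrder InnerProductSpace ComplexConjugate
open Finset

noncomputable section

namespace H710R2.DP

open H759R2.Kad

namespace ZR1

variable {H : Type} [NormedAddCommGroup H] [InnerProductSpace ℂ H] [CompleteSpace H]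

/-- The relative commutant of the matrix units. -/
def rc (M : VonNeumannAlgebra H) {L : ℕ} (e : Fin L → Fin L → (H →L[ℂ] H)) :
    VonNeumannAlgebra H where
  toStarSubalgebra := StarSubalgebra.centralizer ℂ
    (Set.centralizer (M : Set (H →L[ℂ] H)) ∪ Set.range fun q : Fin L × Fin L => e q.1 q.2)
  centralizer_centralizer' := by
    change Set.centralizer (Set.centralizer (StarSubalgebra.centralizer ℂ
      (Set.centralizer (M : Set (H →L[ℂ] H)) ∪
        Set.range fun q : Fin L × Fin L => e q.1 q.2) : Set (H →L[ℂ] H))) = _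
    rw [StarSubalgebra.coe_centralizer]
    rw [Set.centralizer_centralizer_centralizer]
    rfl

theorem mem_rc {M : VonNeumannAlgebra H} {L : ℕ} {e : Fin L → Fin L → (H →L[ℂ] H)}
    (st : ∀ i j, star (e i j) = e j i) {x : H →L[ℂ] H} :
    x ∈ rc M e ↔ x ∈ M ∧ ∀ i j, e i j * x = x * e i j := by
  have h1 : x ∈ rc M e ↔ x ∈ StarSubalgebra.centralizer ℂ
    (Set.centralizer (M : Set (H →L[ℂ] H)) ∪ Set.range fun q : Fin L × Fin L => e q.1 q.2) :=
    Iff.rfl
  rw [h1, StarSubalgebra.mem_centralizer_iff]
  constructor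
  · intro h
    refine ⟨?_, fun i j => ?_⟩
    · have : x ∈ Set.centralizer (Set.centralizer (M : Set (H →L[ℂ] H))) := by
        intro g hg
        exact (h g (Or.inl hg)).1
      rw [VonNeumannAlgebra.centralizer_centralizer] at this
      exact this
    · exact (h (e i j) (Or.inr ⟨(i, j), rfl⟩)).1
  · rintro ⟨h2, h3⟩ g hg
    rcases hg with hg | ⟨⟨i, j⟩, rfl⟩
    · refine ⟨?_, ?_⟩
      · exact (hg x h2).symm
      · have := hg (star x) (star_mem (S := VonNeumannAlgebra H) h2)
        have h4 := congrArg star this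
        simpa [star_mul] using h4
    · refine ⟨h3 i j, ?_⟩
      simp only [st]
      exact h3 j i

/-- Coefficients. -/
def cf {L : ℕ} (e : Fin L → Fin L → (H →L[ℂ] H)) (x : H →L[ℂ] H) (i j : Fin L) : H →L[ℂ] H :=
  ∑ r, e r i * x * e j r

theorem cf_comm {L : ℕ} {e : Fin L → Fin L → (H →L[ℂ] H)}
    (mul : ∀ i j k l, e i j * e k l = if j = k then e i l else 0) (x : H →L[ℂ] H)
    (i j a b : Fin L) : e a b * cf e x i j = e a i * x * e j b ∧
      cf e x i j * e a b = e a i * x * e j b := by
  constructor
  · rw [cf, mul_sum, Finset.sum_eq_single b]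
    · rw [← mul_assoc, ← mul_assoc, mul, if_pos rfl]
    · intro r _ hr
      rw [← mul_assoc, ← mul_assoc, mul, if_neg hr.symm, zero_mul, zero_mul]
    · simp
  · rw [cf, sum_mul, Finset.sum_eq_single a]
    · rw [mul_assoc, mul, if_pos rfl]
    · intro r _ hr
      rw [mul_assoc, mul, if_neg hr, mul_zero]
    · simp

theorem cf_mem {M : VonNeumannAlgebra H} {L : ℕ} {e : Fin L → Fin L → (H →L[ℂ] H)}
    (st : ∀ i j, star (e i j) = e j i)
    (mul : ∀ i j k l, e i j * e k l = if j = k then e i l else 0)
    (hM : ∀ i j, e i j ∈ M) {x : H →L[ℂ] H} (hx : x ∈ M) (i j : Fin L) :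
    cf e x i j ∈ rc M e := by
  rw [mem_rc st]
  refine ⟨sum_mem fun r _ => mul_mem (mul_mem (hM _ _) hx) (hM _ _), fun a b => ?_⟩
  rw [(cf_comm mul x i j a b).1, (cf_comm mul x i j a b).2]

end ZR1

open ZR1

theorem dp_comm : R_comm := by
  intro H _ _ _ M p hp L i₀ e he
  obtain ⟨_, hpc⟩ := hp
  refine ⟨rc M e, fun y => mem_rc he.adj, ?_, ?_⟩
  · intro z hz
    obtain ⟨hz1, hz2⟩ := hz
    have hz1' := (mem_rc he.adj).1 hz1
    refine ⟨hz1'.1, fun y hy => ?_⟩
    -- decomposition of `y`
    have hpe : ∀ i j, p * e i j = e i j := by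
      intro i j
      rw [← he.sum, sum_mul, Finset.sum_eq_single i]
      · rw [he.mul, if_pos rfl]
      · intro r _ hr
        rw [he.mul, if_neg hr]
      · simp
    have hep : ∀ i j, e i j * p = e i j := by
      intro i j
      rw [← hpc.2 _ (he.mem i j), hpe]
    have hq : (1 - p) * y ∈ rc M e := by
      rw [mem_rc he.adj]
      refine ⟨mul_mem (sub_mem (one_mem M) hpc.1) hy, fun i j => ?_⟩
      have h1 : e i j * ((1 - p) * y) = 0 := by
        rw [← mul_assoc, mul_sub, mul_one, hep, sub_self, zero_mul]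
      have h2 : (1 - p) * y * e i j = 0 := by
        have : (1 - p) * y = y * (1 - p) := by
          rw [sub_mul, mul_sub, one_mul, mul_one, hpc.2 y hy]
        rw [this, mul_assoc, sub_mul, one_mul, hpe, sub_self, mul_zero]
      rw [h1, h2]
    have hpy : p * y = ∑ i, ∑ j, cf e y i j * e i j := by
      have h1 : ∀ i j, cf e y i j * e i j = e i i * y * e j j := by
        intro i j
        exact (cf_comm he.mul y i j i j).2
      simp only [h1]
      calc p * y = p * (p * y) := by
            rw [← mul_assoc]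
            have : p * p = p := by
              conv_lhs => rw [← he.sum, mul_sum]
              simp only [he.sum]
              rw [← he.sum]
              refine Finset.sum_congr rfl fun i _ => ?_
              rw [he.sum, hpe]
            rw [this]
        _ = p * y * p := by rw [hpc.2 (p * y) (mul_mem hpc.1 hy)]
        _ = ∑ i, ∑ j, e i i * y * e j j := by
            rw [← he.sum, sum_mul, sum_mul]
            refine Finset.sum_congr rfl fun i _ => ?_
            rw [mul_sum]
    have hy' : y = (1 - p) * y + ∑ i, ∑ j, cf e y i j * e i j := by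
      rw [← hpy, sub_mul, one_mul, sub_add_cancel]
    rw [hy', mul_add, add_mul, hz2 _ hq]
    congr 1
    rw [mul_sum, sum_mul]
    refine Finset.sum_congr rfl fun i _ => ?_
    rw [mul_sum, sum_mul]
    refine Finset.sum_congr rfl fun j _ => ?_
    rw [← mul_assoc, hz2 _ (cf_mem he.adj he.mul he.mem hy i j), mul_assoc, mul_assoc,
      hz1'.2 i j]
  · intro y hy
    exact cf_mem he.adj he.mul he.mem hy i₀ i₀

end H710R2.DP
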